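import Pool.Agent.H54.LQ.Targets

/-!
# Bases exist (helper50, row BSX of the board of helper7 and helper54)
-/

set_option autoImplicit false

open Set Filter Topology

namespace Pool.Agent.H50.LQ

open Pool.Agent.H93.CP Pool.Agent.H7.LP Pool.Agent.H7.LQ Pool.Agent.H54.LQ

/-- BSX -/
theorem pf_BSX : T_BSX := by
  intro G _ _ _ _
  have hc : (insert (univ : Set G) (TopologicalSpace.countableBasis G)).Countable :=
    (TopologicalSpace.countable_countableBasis G).insert _
  obtain ⟨U, hU⟩ := hc.exists_eq_range (insert_nonempty _ _)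
  have hB := TopologicalSpace.isBasis_countableBasis G
  obtain ⟨V, hV⟩ := (𝓝 (1 : G)).exists_antitone_basis
  refine ⟨⟨U, ?_, ?_, fun m => interior (V m) ∩ (interior (V m))⁻¹, ?_, ?_, ?_, ?_, ?_⟩⟩
  · intro p
    have h : U p ∈ insert (univ : Set G) (TopologicalSpace.countableBasis G) := by
      rw [hU]
      exact ⟨p, rfl⟩
    rcases mem_insert_iff.1 h with h | h
    · rw [h]
      exact isOpen_univ
    · exact hB.isOpen h
  · intro a O hO
    obtain ⟨W, hW, haW, hWO⟩ := hB.mem_nhds_iff.1 hO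
    have h : W ∈ insert (univ : Set G) (TopologicalSpace.countableBasis G) :=
      mem_insert_of_mem _ hW
    rw [hU] at h
    obtain ⟨p, rfl⟩ := h
    exact ⟨p, haW, hWO⟩
  · intro m
    exact isOpen_interior.inter isOpen_interior.inv
  · intro m
    have h1 : (1 : G) ∈ interior (V m) := mem_interior_iff_mem_nhds.2 (hV.mem m)
    refine ⟨h1, ?_⟩
    rw [Set.mem_inv, inv_one]
    exact h1
  · rintro m g ⟨h1, h2⟩
    refine ⟨Set.mem_inv.1 h2, ?_⟩
    rw [Set.mem_inv, inv_inv]
    exact h1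
  · rintro m g ⟨h1, h2⟩
    have h3 : interior (V (m + 1)) ⊆ interior (V m) :=
      interior_mono (hV.antitone (Nat.le_succ m))
    exact ⟨h3 h1, Set.mem_inv.2 (h3 (Set.mem_inv.1 h2))⟩
  · intro O hO
    obtain ⟨m, hm⟩ := hV.mem_iff.1 hO
    exact ⟨m, fun g hg => hm (interior_subset hg.1)⟩

end Pool.Agent.H50.LQ
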